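import Mathlib

/-!
# Mapping class groups as topological groups, and one-holed tori
-/

set_option autoImplicit false

open Topology unitInterval

namespace Pool.Agent.Helper2.Genus

/-- The compact-open topology on the group of self-homeomorphisms of `Y`. -/
instance homeoTopology (Y : Type*) [TopologicalSpace Y] : TopologicalSpace (Y ≃ₜ Y) :=
  TopologicalSpace.induced (fun h : Y ≃ₜ Y => (⟨h, h.continuous⟩ : C(Y, Y)))
    ContinuousMap.compactOpen

/-- `h` is isotopic to the identity: there is a family `F t`, `0 ≤ t ≤ 1`, of homeomorphisms,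
jointly continuous, with `F 0 = id` and `F 1 = h`. -/
def IsotopicToId {Y : Type*} [TopologicalSpace Y] (h : Y ≃ₜ Y) : Prop :=
  ∃ F : I → (Y ≃ₜ Y), Continuous (fun p : I × Y => F p.1 p.2) ∧ F 0 = 1 ∧ F 1 = h

/-- The subgroup of homeomorphisms isotopic to the identity. -/
def isotopySubgroup (Y : Type*) [TopologicalSpace Y] : Subgroup (Y ≃ₜ Y) where
  carrier := {h | IsotopicToId h}
  one_mem' := ⟨fun _ => 1, continuous_snd, rfl, rfl⟩
  mul_mem' := by
    rintro g h ⟨F, hF, hF0, hF1⟩ ⟨F', hF', hF0', hF1'⟩
    refine ⟨fun t => F t * F' t, ?_, by simp [hF0, hF0'], by simp [hF1, hF1']⟩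
    exact hF.comp (continuous_fst.prodMk hF')
  inv_mem' := by
    rintro h ⟨F, hF, hF0, hF1⟩
    refine ⟨fun t => F (σ t) * h⁻¹, ?_, by simp [hF1], by simp [hF0]⟩
    exact hF.comp ((continuous_symm.comp continuous_fst).prodMk
      (h.symm.continuous.comp continuous_snd))

instance isotopySubgroup_normal (Y : Type*) [TopologicalSpace Y] :
    (isotopySubgroup Y).Normal where
  conj_mem := by
    rintro h ⟨F, hF, hF0, hF1⟩ g
    refine ⟨fun t => g * F t * g⁻¹, ?_, by simp [hF0], by simp [hF1]⟩
    exact g.continuous.comp (hF.comp (continuous_fst.prodMk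
      (g.symm.continuous.comp continuous_snd)))

/-- The group of isotopy classes of the homeomorphisms in `H`, where `H` is a group of
self-homeomorphisms of `Y`.  It carries the quotient of the compact-open topology.  For a surface
`Y` and the group `H` of orientation-preserving homeomorphisms this is the mapping class group. -/
abbrev MCG {Y : Type*} [TopologicalSpace Y] (H : Subgroup (Y ≃ₜ Y)) : Type _ :=
  H ⧸ (isotopySubgroup Y).subgroupOf H

/-- A one-holed torus: the torus `(ℝ/ℤ)²` minus the closed square of the points both of whose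
coordinates are at distance at most `1/8` from an integer. -/
def Handle : Set (UnitAddCircle × UnitAddCircle) := {p | 1/8 < ‖p.1‖ ∨ 1/8 < ‖p.2‖}

end Pool.Agent.Helper2.Genus
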