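import Mathlib

/-!
# Circle-valued functions, liftable ones, degrees
-/

set_option autoImplicit false

open Topology unitInterval Set

namespace Pool.Agent.Helper2.Genus

/-- The circle-valued function defined by a real-valued one. -/
def expHom (Y : Type*) [TopologicalSpace Y] : C(Y, ℝ) →+ C(Y, UnitAddCircle) where
  toFun φ := ⟨fun y => ((φ y : ℝ) : UnitAddCircle),
    (AddCircle.continuous_mk' (1 : ℝ)).comp φ.continuous⟩
  map_zero' := by ext y; simp
  map_add' φ ψ := by
    ext y
    exact AddCircle.coe_add (1 : ℝ) (φ y) (ψ y)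

/-- The group of circle-valued functions which lift to the real line. -/
def liftable (Y : Type*) [TopologicalSpace Y] : AddSubgroup C(Y, UnitAddCircle) :=
  (expHom Y).range

variable {Y Z : Type*} [TopologicalSpace Y] [TopologicalSpace Z]

@[simp] lemma expHom_apply (φ : C(Y, ℝ)) (y : Y) :
    expHom Y φ y = ((φ y : ℝ) : UnitAddCircle) := rfl

lemma mem_liftable_iff {α : C(Y, UnitAddCircle)} :
    α ∈ liftable Y ↔ ∃ φ : C(Y, ℝ), ∀ y, ((φ y : ℝ) : UnitAddCircle) = α y := by
  constructor
  · rintro ⟨φ, rfl⟩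
    exact ⟨φ, fun y => rfl⟩
  · rintro ⟨φ, h⟩
    exact ⟨φ, by ext y; exact h y⟩

lemma liftable_comp {α : C(Z, UnitAddCircle)} (hα : α ∈ liftable Z) (f : C(Y, Z)) :
    α.comp f ∈ liftable Y := by
  rw [mem_liftable_iff] at hα ⊢
  obtain ⟨φ, hφ⟩ := hα
  exact ⟨φ.comp f, fun y => hφ (f y)⟩

lemma const_mem_liftable (c : UnitAddCircle) : ContinuousMap.const Y c ∈ liftable Y := by
  rw [mem_liftable_iff]
  obtain ⟨t, -, ht⟩ := AddCircle.eq_coe_Ico (p := (1 : ℝ)) c
  exact ⟨ContinuousMap.const Y t, fun y => ht⟩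

lemma isCov : IsCoveringMap ((↑) : ℝ → UnitAddCircle) := AddCircle.isCoveringMap_coe 1

/-- A circle-valued function on a product with the unit interval which vanishes at time zero
lifts at time one. -/
lemma liftable_of_homotopy (H : C(I × Y, UnitAddCircle)) (h0 : ∀ y, H (0, y) = 0) :
    H.comp ⟨fun y => ((1 : I), y), by fun_prop⟩ ∈ liftable Y := by
  rw [mem_liftable_iff]
  let G : C(I × Y, ℝ) := isCov.liftHomotopy H (ContinuousMap.const Y 0)
    (by intro y; rw [h0]; simp)
  refine ⟨G.comp ⟨fun y => ((1 : I), y), by fun_prop⟩, fun y => ?_⟩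
  have := congr_fun (isCov.liftHomotopy_lifts H (ContinuousMap.const Y 0)
    (by intro y; rw [h0]; simp)) ((1 : I), y)
  exact this

lemma liftable_sub_of_homotopy (F : C(I × Y, Z)) (α : C(Z, UnitAddCircle)) :
    α.comp (F.comp ⟨fun y => ((1 : I), y), by fun_prop⟩) -
      α.comp (F.comp ⟨fun y => ((0 : I), y), by fun_prop⟩) ∈ liftable Y := by
  let H : C(I × Y, UnitAddCircle) := α.comp F -
    (α.comp (F.comp ⟨fun y => ((0 : I), y), by fun_prop⟩)).comp ⟨Prod.snd, continuous_snd⟩
  have := liftable_of_homotopy H (by intro y; simp [H])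
  convert this using 1
  rfl

/-- The representative in `[-1/2, 1/2)`. -/
lemma exists_rep (x : UnitAddCircle) : ∃ t : ℝ, -(1/2) ≤ t ∧ t < 1/2 ∧ (t : UnitAddCircle) = x := by
  have h := AddCircle.coe_image_Ico_eq (1 : ℝ) (-(1/2) : ℝ)
  have hx : x ∈ (univ : Set UnitAddCircle) := mem_univ x
  rw [← h] at hx
  obtain ⟨t, ht, rfl⟩ := hx
  exact ⟨t, ht.1, by linarith [ht.2], rfl⟩

lemma norm_coe_of_abs_le {t : ℝ} (ht : |t| ≤ 1/2) : ‖(t : UnitAddCircle)‖ = |t| :=
  (AddCircle.norm_coe_eq_abs_iff (1 : ℝ) one_ne_zero).mpr (by simpa using ht)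

/-- A circle-valued function with values in a small arc around zero lifts. -/
lemma liftable_of_small (β : C(Y, UnitAddCircle)) (h : ∀ y, ‖β y‖ < 1/4) : β ∈ liftable Y := by
  rw [mem_liftable_iff]
  refine ⟨⟨fun y => ((AddCircle.equivIco (1 : ℝ) (-(1/2) : ℝ) (β y) : _) : ℝ), ?_⟩, ?_⟩
  · rw [continuous_iff_continuousAt]
    intro y
    have h1 : ContinuousAt (AddCircle.equivIco (1 : ℝ) (-(1/2) : ℝ)) (β y) := by
      apply AddCircle.continuousAt_equivIco
      intro h2
      have h3 := h y
      rw [h2, norm_coe_of_abs_le (by norm_num)] at h3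
      norm_num at h3
    exact (continuous_subtype_val.continuousAt).comp (h1.comp β.continuous.continuousAt)
  · intro y
    exact AddCircle.coe_equivIco

/-! ### Degree -/

lemma exists_int_of_coe_eq {s t : ℝ} (h : (s : UnitAddCircle) = (t : UnitAddCircle)) :
    ∃ n : ℤ, s - t = n := by
  have : ((s - t : ℝ) : UnitAddCircle) = 0 := by
    rw [AddCircle.coe_sub, h, sub_self]
  obtain ⟨n, hn⟩ := AddCircle.coe_eq_zero_iff (1 : ℝ) |>.mp this
  exact ⟨n, by rw [← hn]; simp⟩

/-- A continuous real function which takes integer values on a preconnected set is constant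
there. -/
lemma const_of_int {s : Set Y} (hs : IsPreconnected s) (f : Y → ℝ) (hf : ContinuousOn f s)
    (hint : ∀ y ∈ s, ∃ n : ℤ, f y = n) {x y : Y} (hx : x ∈ s) (hy : y ∈ s) : f x = f y := by
  by_contra hne
  wlog hlt : f x < f y generalizing x y
  · exact this hy hx (Ne.symm hne) (lt_of_le_of_ne (not_lt.mp hlt) (Ne.symm hne))
  obtain ⟨n, hn⟩ := hint x hx
  obtain ⟨m, hm⟩ := hint y hy
  have himg := hs.intermediate_value hx hy hf
  have hmem : (n : ℝ) + 1/2 ∈ Icc (f x) (f y) := by
    rw [hn, hm] at hlt ⊢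
    have h1 : n < m := by exact_mod_cast hlt
    have h2 : (n : ℝ) + 1 ≤ m := by exact_mod_cast h1
    constructor <;> linarith
  obtain ⟨z, hz, hz2⟩ := himg hmem
  obtain ⟨k, hk⟩ := hint z hz
  rw [hk] at hz2
  have h3 : (2 * k : ℤ) = 2 * n + 1 := by
    have : (2 * k : ℝ) = 2 * n + 1 := by linarith
    exact_mod_cast this
  omega

lemma exists_degree (u : C(UnitAddCircle, UnitAddCircle)) :
    ∃ k : ℤ, u - k • ContinuousMap.id UnitAddCircle ∈ liftable UnitAddCircle := by
  let c : C(ℝ, UnitAddCircle) := ⟨_, AddCircle.continuous_mk' (1 : ℝ)⟩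
  obtain ⟨e₀, -, he⟩ := AddCircle.eq_coe_Ico (p := (1 : ℝ)) (u.comp c 0)
  obtain ⟨φ, ⟨-, hφ⟩, -⟩ := isCov.existsUnique_continuousMap_lifts (u.comp c) 0 e₀ he
  have hφ' : ∀ t, ((φ t : ℝ) : UnitAddCircle) = u (t : UnitAddCircle) := fun t => congr_fun hφ t
  have hint : ∀ t : ℝ, ∃ n : ℤ, φ (t + 1) - φ t = n := by
    intro t
    apply exists_int_of_coe_eq
    rw [hφ', hφ', AddCircle.coe_add_period]
  have hconst : ∀ t : ℝ, φ (t + 1) - φ t = φ (0 + 1) - φ 0 := by
    intro t
    exact const_of_int isPreconnected_univ (fun t => φ (t + 1) - φ t)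
      (by fun_prop) (fun t _ => hint t) (mem_univ t) (mem_univ 0)
  obtain ⟨k, hk⟩ := hint 0
  refine ⟨k, mem_liftable_iff.mpr ?_⟩
  have hper : Function.Periodic (fun t : ℝ => φ t - k * t) 1 := by
    intro t
    have := hconst t
    rw [hk] at this
    simp only
    linarith
  refine ⟨⟨hper.lift, ?_⟩, ?_⟩
  · exact continuous_coinduced_dom.mpr (by
      change Continuous (fun t : ℝ => φ t - k * t)
      fun_prop)
  · intro x
    obtain ⟨t, -, rfl⟩ := AddCircle.eq_coe_Ico (p := (1 : ℝ)) x
    have h1 : hper.lift (t : UnitAddCircle) = φ t - k * t := hper.lift_coe t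
    change ((hper.lift (t : UnitAddCircle) : ℝ) : UnitAddCircle) = _
    rw [h1]
    simp only [ContinuousMap.sub_apply, ContinuousMap.smul_apply, ContinuousMap.id_apply]
    rw [AddCircle.coe_sub, hφ', ← AddCircle.coe_zsmul, zsmul_eq_mul]

lemma zsmul_id_liftable {k : ℤ}
    (h : k • ContinuousMap.id UnitAddCircle ∈ liftable UnitAddCircle) : k = 0 := by
  obtain ⟨ρ, hρ⟩ := mem_liftable_iff.mp h
  have hint : ∀ t : ℝ, ∃ n : ℤ, ρ (t : UnitAddCircle) - k * t = n := by
    intro t
    apply exists_int_of_coe_eq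
    rw [hρ]
    simp only [ContinuousMap.smul_apply, ContinuousMap.id_apply]
    rw [← AddCircle.coe_zsmul, zsmul_eq_mul]
  have hc : Continuous (fun t : ℝ => ρ (t : UnitAddCircle) - k * t) := by
    have := AddCircle.continuous_mk' (1 : ℝ)
    exact (ρ.continuous.comp this).sub (by fun_prop)
  have := const_of_int isPreconnected_univ _ hc.continuousOn (fun t _ => hint t)
    (mem_univ (1 : ℝ)) (mem_univ 0)
  have h1 : ((1 : ℝ) : UnitAddCircle) = ((0 : ℝ) : UnitAddCircle) := by
    rw [AddCircle.coe_period]; simp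
  rw [h1] at this
  have h2 : (k : ℝ) = 0 := by linarith
  exact_mod_cast h2

/-- The degree of a circle map. -/
noncomputable def deg : C(UnitAddCircle, UnitAddCircle) →+ ℤ :=
  AddMonoidHom.mk' (fun u => (exists_degree u).choose) (by
    intro u v
    have h1 := (exists_degree u).choose_spec
    have h2 := (exists_degree v).choose_spec
    have h3 := (exists_degree (u + v)).choose_spec
    have h4 := (liftable UnitAddCircle).sub_mem ((liftable UnitAddCircle).add_mem h1 h2) h3
    rw [← sub_eq_zero]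
    apply zsmul_id_liftable
    convert h4 using 1
    rw [sub_smul, add_smul]
    abel)

lemma deg_spec (u : C(UnitAddCircle, UnitAddCircle)) :
    u - deg u • ContinuousMap.id UnitAddCircle ∈ liftable UnitAddCircle :=
  (exists_degree u).choose_spec

lemma deg_eq_zero_of_liftable {u : C(UnitAddCircle, UnitAddCircle)}
    (h : u ∈ liftable UnitAddCircle) : deg u = 0 := by
  apply zsmul_id_liftable
  have := (liftable UnitAddCircle).sub_mem h (deg_spec u)
  simpa using this

lemma deg_id : deg (ContinuousMap.id UnitAddCircle) = 1 := by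
  have h1 := deg_spec (ContinuousMap.id UnitAddCircle)
  have h2 : ((1 : ℤ) - deg (ContinuousMap.id UnitAddCircle)) •
      ContinuousMap.id UnitAddCircle ∈ liftable UnitAddCircle := by
    rw [sub_smul, one_smul]
    exact h1
  have := zsmul_id_liftable h2
  omega

lemma deg_congr {u v : C(UnitAddCircle, UnitAddCircle)}
    (h : u - v ∈ liftable UnitAddCircle) : deg u = deg v := by
  have := deg_eq_zero_of_liftable h
  rw [map_sub] at this
  omega

/-! ### A map of degree one supported in an arc -/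

/-- The real function used to define `psi`. -/
noncomputable def psiR (t : ℝ) : ℝ := -max (min t (1/2 - t)) (-(1/2) - t)

lemma psiR_cont : Continuous psiR := by
  unfold psiR
  fun_prop

/-- A continuous function on the circle, equal to minus the coordinate near `0`. -/
noncomputable def psi : C(UnitAddCircle, ℝ) :=
  ⟨AddCircle.liftIco (1 : ℝ) (-(1/2) : ℝ) psiR, by
    apply AddCircle.liftIco_continuous
    · unfold psiR
      norm_num
    · exact psiR_cont.continuousOn⟩

/-- The map `theta` of degree one which is constant near `0`. -/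
noncomputable def theta : C(UnitAddCircle, UnitAddCircle) :=
  ContinuousMap.id UnitAddCircle + expHom _ psi

lemma theta_apply (x : UnitAddCircle) : theta x = x + ((psi x : ℝ) : UnitAddCircle) := rfl

lemma theta_eq_zero {x : UnitAddCircle} (hx : ‖x‖ ≤ 1/4) : theta x = 0 := by
  obtain ⟨t, h1, h2, rfl⟩ := exists_rep x
  have habs : |t| ≤ 1/2 := abs_le.mpr ⟨by linarith, h2.le⟩
  rw [norm_coe_of_abs_le habs] at hx
  obtain ⟨h3, h4⟩ := abs_le.mp hx
  have hpsi : psi (t : UnitAddCircle) = psiR t := by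
    change AddCircle.liftIco (1 : ℝ) (-(1/2) : ℝ) psiR (t : UnitAddCircle) = psiR t
    exact AddCircle.liftIco_coe_apply ⟨h1, by linarith⟩
  have h5 : psiR t = -t := by
    unfold psiR
    rw [min_eq_left (by linarith), max_eq_left (by linarith)]
  rw [theta_apply, hpsi, h5, AddCircle.coe_neg]
  simp

lemma theta_comp_sub (u : C(Y, UnitAddCircle)) : theta.comp u - u ∈ liftable Y := by
  rw [mem_liftable_iff]
  refine ⟨psi.comp u, fun y => ?_⟩
  simp [theta_apply]

lemma deg_theta_comp (u : C(UnitAddCircle, UnitAddCircle)) : deg (theta.comp u) = deg u :=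
  deg_congr (theta_comp_sub u)

lemma deg_theta : deg theta = 1 := by
  have := deg_theta_comp (ContinuousMap.id _)
  rwa [ContinuousMap.comp_id, deg_id] at this

end Pool.Agent.Helper2.Genus
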