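import Mathlib
import Pool.Agent.Helper50.Ends.Cayley

/-!
# The obstruction to two ends, without any topological assumption beyond the pseudometric
-/

set_option autoImplicit false

namespace Pool.Agent.Helper2.Genus

open Pool.Agent.Helper50.Ends

theorem not_two_of_far {G : Type*} [Group G] [TopologicalSpace G] (S : Set G)
    (hS : CoarselyBounded S) (hgen : Subgroup.closure S = ⊤) (δ : LeftPseudometric G) (f : G)
    (hf : ∀ R : ℝ, {n : ℤ | δ.d 1 (f ^ n) ≤ R}.Finite)
    (hfar : ∀ R : ℝ, ∃ g : G, ∀ n : ℤ, R < δ.d (f ^ n) g) :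
    numEnds (cayley S) ≠ 2 := by
  intro h
  obtain ⟨-, B, hB, c₁, c₂, hc₁, hc₂, hc⟩ := numEnds_eq_two_iff.mp h
  have H := setup_of_two hgen h
  obtain ⟨K, hK0, hlip⟩ := lipschitz hS hgen δ
  have hproper : Proper (cayley S) f := by
    intro R
    refine (hf (R * K)).subset ?_
    intro n hn
    simp only [Set.mem_ofPred_eq] at hn ⊢
    refine (hlip _ _).trans ?_
    exact mul_le_mul_of_nonneg_right (by exact_mod_cast hn) hK0
  obtain ⟨R, hR⟩ := H.dense hproper hB hc₁ hc₂ hc
  obtain ⟨g, hg⟩ := hfar (R * K)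
  obtain ⟨n, hn⟩ := hR g
  have h1 := hlip (f ^ n) g
  have h2 : ((cayley S).dist (f ^ n) g : ℝ) * K ≤ R * K :=
    mul_le_mul_of_nonneg_right (by exact_mod_cast hn) hK0
  have h3 := hg n
  linarith

end Pool.Agent.Helper2.Genus
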