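import Mathlib
import Pool.Agent.Helper2.Genus.Circle
import Pool.Agent.Helper2.Genus.Defs

/-!
# The action of the homeomorphism group on compactly supported circle-valued functions modulo
liftable ones
-/

set_option autoImplicit false

open Topology unitInterval Set

namespace Pool.Agent.Helper2.Genus

variable (Y : Type*) [TopologicalSpace Y]

/-- Circle-valued functions vanishing outside a compact set. -/
def Pcs : AddSubgroup C(Y, UnitAddCircle) where
  carrier := {α | ∃ K : Set Y, IsCompact K ∧ ∀ y ∉ K, α y = 0}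
  zero_mem' := ⟨∅, isCompact_empty, fun y _ => rfl⟩
  add_mem' := by
    rintro α β ⟨K, hK, h1⟩ ⟨L, hL, h2⟩
    refine ⟨K ∪ L, hK.union hL, fun y hy => ?_⟩
    have e1 := h1 y (fun h => hy (Or.inl h))
    have e2 := h2 y (fun h => hy (Or.inr h))
    simp [e1, e2]
  neg_mem' := by
    rintro α ⟨K, hK, h1⟩
    refine ⟨K, hK, fun y hy => ?_⟩
    simp [h1 y hy]

/-- Compactly supported functions modulo liftable ones. -/
abbrev Lam : Type _ := Pcs Y ⧸ (liftable Y).addSubgroupOf (Pcs Y)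

variable {Y}

/-- Precomposition with a homeomorphism. -/
def pull (g : Y ≃ₜ Y) : Pcs Y →+ Pcs Y where
  toFun α := ⟨α.1.comp ⟨g, g.continuous⟩, by
    obtain ⟨K, hK, h1⟩ := α.2
    refine ⟨g.symm '' K, hK.image g.symm.continuous, fun y hy => ?_⟩
    apply h1
    intro hgy
    exact hy ⟨g y, hgy, g.symm_apply_apply y⟩⟩
  map_zero' := rfl
  map_add' _ _ := rfl

@[simp] lemma pull_apply (g : Y ≃ₜ Y) (α : Pcs Y) (y : Y) : (pull g α).1 y = α.1 (g y) := rfl

/-- The induced action on `Lam`. -/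
def actHom (g : Y ≃ₜ Y) : Lam Y →+ Lam Y :=
  QuotientAddGroup.map _ _ (pull g⁻¹) (by
    intro α hα
    exact liftable_comp hα ⟨(g⁻¹ : Y ≃ₜ Y), (g⁻¹ : Y ≃ₜ Y).continuous⟩)

@[simp] lemma actHom_mk (g : Y ≃ₜ Y) (α : Pcs Y) :
    actHom g (α : Lam Y) = ((pull g⁻¹ α : Pcs Y) : Lam Y) := rfl

/-- The action as a homomorphism. -/
def act (Y : Type*) [TopologicalSpace Y] : (Y ≃ₜ Y) →* AddMonoid.End (Lam Y) where
  toFun := actHom
  map_one' := by
    refine AddMonoidHom.ext fun q => ?_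
    obtain ⟨α, rfl⟩ := QuotientAddGroup.mk_surjective q
    rfl
  map_mul' g h := by
    refine AddMonoidHom.ext fun q => ?_
    obtain ⟨α, rfl⟩ := QuotientAddGroup.mk_surjective q
    rfl

lemma act_mk (g : Y ≃ₜ Y) (α : Pcs Y) :
    act Y g (α : Lam Y) = ((pull g⁻¹ α : Pcs Y) : Lam Y) := rfl

lemma mk_eq_iff {α β : Pcs Y} : ((α : Lam Y) = β) ↔ α.1 - β.1 ∈ liftable Y := by
  rw [QuotientAddGroup.eq, AddSubgroup.mem_addSubgroupOf]
  constructor
  · intro h
    have := (liftable Y).neg_mem h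
    simpa [neg_add_rev, sub_eq_add_neg, add_comm] using this
  · intro h
    have := (liftable Y).neg_mem h
    simpa [neg_add_rev, sub_eq_add_neg, add_comm] using this

/-- Homeomorphisms isotopic to the identity act trivially. -/
lemma act_of_isotopic {h : Y ≃ₜ Y} (hh : IsotopicToId h) : act Y h = 1 := by
  have hinv : IsotopicToId h⁻¹ := (isotopySubgroup Y).inv_mem hh
  obtain ⟨F, hF, hF0, hF1⟩ := hinv
  refine AddMonoidHom.ext fun q => ?_
  obtain ⟨α, rfl⟩ := QuotientAddGroup.mk_surjective q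
  change ((pull h⁻¹ α : Pcs Y) : Lam Y) = (α : Lam Y)
  rw [mk_eq_iff]
  have := liftable_sub_of_homotopy (⟨fun p : I × Y => F p.1 p.2, hF⟩ : C(I × Y, Y)) α.1
  convert this using 1
  ext y
  simp [hF0, hF1]

/-- Homeomorphisms close to the identity act trivially on a given class. -/
lemma eventually_sub_liftable [T2Space Y] [LocallyCompactSpace Y] [LocallyConnectedSpace Y]
    {α : C(Y, UnitAddCircle)} (hα : α ∈ Pcs Y) :
    ∀ᶠ g : Y ≃ₜ Y in 𝓝 1, α.comp ⟨g, g.continuous⟩ - α ∈ liftable Y := by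
  obtain ⟨K, hK, hK0⟩ := hα
  -- local data
  have hloc : ∀ x : Y, ∃ C O : Set Y, IsOpen C ∧ IsCompact (closure C) ∧ IsOpen O ∧ x ∈ O ∧
      IsPreconnected (closure O) ∧ closure O ⊆ C := by
    intro x
    obtain ⟨C, hCo, hxC, hCc⟩ := exists_isOpen_mem_isCompact_closure x
    obtain ⟨V, hVx, hVcl, hVC⟩ := exists_mem_nhds_isClosed_subset (hCo.mem_nhds hxC)
    obtain ⟨O, hO1, hO2, hO3, hO4⟩ := locallyConnectedSpace_iff_subsets_isOpen_isConnected.mp
      inferInstance x V hVx
    exact ⟨C, O, hCo, hCc, hO2, hO3, hO4.isPreconnected.closure,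
      (closure_minimal hO1 hVcl).trans hVC⟩
  choose C O hCo hCc hOo hxO hOc hOC using hloc
  obtain ⟨t, htK, ht⟩ := hK.elim_nhds_subcover O (fun x _ => (hOo x).mem_nhds (hxO x))
  set K' : Set Y := ⋃ x ∈ t, closure (C x) with hK'
  have hK'c : IsCompact K' := t.isCompact_biUnion (fun x _ => hCc x)
  have hind : Continuous (fun g : Y ≃ₜ Y => (⟨g, g.continuous⟩ : C(Y, Y))) :=
    continuous_induced_dom
  have hone : (⟨(1 : Y ≃ₜ Y), (1 : Y ≃ₜ Y).continuous⟩ : C(Y, Y)) = ContinuousMap.id Y := rfl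
  -- first condition
  have h1 : ∀ x ∈ t, ∀ᶠ g : Y ≃ₜ Y in 𝓝 1, MapsTo g (frontier (C x)) (closure (O x))ᶜ := by
    intro x _
    have hcomp : IsCompact (frontier (C x)) := (hCc x).of_isClosed_subset isClosed_frontier
      frontier_subset_closure
    have hopen := (ContinuousMap.isOpen_setOfPred_mapsTo hcomp
      (isClosed_closure (s := O x)).isOpen_compl).preimage hind
    refine hopen.mem_nhds ?_
    intro y hy hy2
    have : y ∈ C x := hOC x hy2
    rw [(hCo x).frontier_eq] at hy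
    exact hy.2 this
  have h2 : ∀ x ∈ t, ∀ᶠ g : Y ≃ₜ Y in 𝓝 1, g x ∈ O x := by
    intro x _
    have hopen := (ContinuousMap.isOpen_setOfPred_mapsTo (isCompact_singleton (x := x))
      (hOo x)).preimage hind
    have := hopen.mem_nhds (x := (1 : Y ≃ₜ Y)) (by
      intro y hy
      rw [mem_singleton_iff] at hy
      rw [hy]
      exact hxO x)
    filter_upwards [this] with g hg
    exact hg (mem_singleton x)
  have h3 : ∀ᶠ g : Y ≃ₜ Y in 𝓝 1, MapsTo (α.comp ⟨g, g.continuous⟩ - α) K'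
      {z : UnitAddCircle | ‖z‖ < 1/4} := by
    have hc : Continuous (fun g : Y ≃ₜ Y => α.comp (⟨g, g.continuous⟩ : C(Y, Y)) - α) :=
      ((ContinuousMap.continuous_postcomp α).comp hind).sub continuous_const
    have hopen := (ContinuousMap.isOpen_setOfPred_mapsTo hK'c
      (isOpen_lt continuous_norm continuous_const :
        IsOpen {z : UnitAddCircle | ‖z‖ < 1/4})).preimage hc
    refine hopen.mem_nhds ?_
    intro y _
    have : (α.comp (⟨(1 : Y ≃ₜ Y), (1 : Y ≃ₜ Y).continuous⟩ : C(Y, Y)) - α) y = 0 := by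
      simp
    change ‖(α.comp (⟨(1 : Y ≃ₜ Y), (1 : Y ≃ₜ Y).continuous⟩ : C(Y, Y)) - α) y‖ < 1/4
    rw [this]
    norm_num
  have h1' : ∀ᶠ g : Y ≃ₜ Y in 𝓝 1, ∀ x ∈ t, MapsTo g (frontier (C x)) (closure (O x))ᶜ :=
    (Finset.eventually_all t).mpr h1
  have h2' : ∀ᶠ g : Y ≃ₜ Y in 𝓝 1, ∀ x ∈ t, g x ∈ O x :=
    (Finset.eventually_all t).mpr h2
  filter_upwards [h1', h2', h3] with g hg1 hg2 hg3
  refine liftable_of_small _ (fun y => ?_)
  by_cases hy : y ∈ K'
  · exact hg3 hy
  · have hyC : ∀ x ∈ t, y ∉ closure (C x) := by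
      intro x hx hyx
      exact hy (mem_biUnion hx hyx)
    have hyK : y ∉ K := by
      intro hyK
      obtain ⟨x, hx, hyx⟩ := mem_iUnion₂.mp (ht hyK)
      exact hyC x hx (subset_closure (hOC x (subset_closure hyx)))
    have hgy : g y ∉ K := by
      intro hgy
      obtain ⟨x, hx, hyx⟩ := mem_iUnion₂.mp (ht hgy)
      -- the connected set g⁻¹ (closure (O x)) meets the frontier of `C x`
      have hpre : IsPreconnected (g.symm '' closure (O x)) :=
        (hOc x).image _ g.symm.continuous.continuousOn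
      have hin : (g.symm '' closure (O x) ∩ C x).Nonempty :=
        ⟨x, ⟨g x, subset_closure (hg2 x hx), g.symm_apply_apply x⟩,
          hOC x (subset_closure (hxO x))⟩
      have hout : (g.symm '' closure (O x) ∩ (closure (C x))ᶜ).Nonempty :=
        ⟨y, ⟨g y, subset_closure hyx, g.symm_apply_apply y⟩, hyC x hx⟩
      have hcover : g.symm '' closure (O x) ⊆ C x ∪ (closure (C x))ᶜ := by
        rintro _ ⟨w, hw, rfl⟩
        by_contra hz
        rw [mem_union, not_or, mem_compl_iff, not_not] at hz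
        have hfr : g.symm w ∈ frontier (C x) := by
          rw [(hCo x).frontier_eq]
          exact ⟨hz.2, hz.1⟩
        have := hg1 x hx hfr
        rw [g.apply_symm_apply] at this
        exact this hw
      obtain ⟨z, -, hz1, hz2⟩ := hpre _ _ (hCo x) isClosed_closure.isOpen_compl hcover hin hout
      exact hz2 (subset_closure hz1)
    simp [hK0 y hyK, hK0 _ hgy]

end Pool.Agent.Helper2.Genus
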