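import Mathlib
import Pool.Agent.Helper2.Genus.Circle

/-!
# The group of circle-valued functions modulo liftable ones is finitely generated on a compact
manifold
-/

set_option autoImplicit false

open Topology unitInterval Set

namespace Pool.Agent.Helper2.Genus

lemma isNoetherian_of_maps {A B N : Type*} [AddCommGroup A] [AddCommGroup B] [AddCommGroup N]
    (π : B →+ A) (D : B →+ N) (hπ : Function.Surjective π) (hk : ∀ b, D b = 0 → π b = 0)
    [IsNoetherian ℤ N] : IsNoetherian ℤ A := by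
  let D' : B →ₗ[ℤ] N := D.toIntLinearMap
  let π' : B →ₗ[ℤ] A := π.toIntLinearMap
  have h1 : IsNoetherian ℤ (B ⧸ LinearMap.ker D') := by
    refine isNoetherian_of_injective ((LinearMap.ker D').liftQ D' le_rfl) ?_
    rw [← LinearMap.ker_eq_bot]
    exact Submodule.ker_liftQ_eq_bot _ _ _ le_rfl
  have h2 : LinearMap.ker D' ≤ LinearMap.ker π' := fun b hb => hk b hb
  refine isNoetherian_of_surjective ((LinearMap.ker D').liftQ π' h2) ?_
  rw [LinearMap.range_eq_top]
  intro a
  obtain ⟨b, hb⟩ := hπ a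
  refine ⟨(LinearMap.ker D').mkQ b, ?_⟩
  rw [Submodule.mkQ_apply, Submodule.liftQ_apply]
  exact hb

variable {n : ℕ} {X : Type*} [TopologicalSpace X]

lemma exists_good_nhd [ChartedSpace (EuclideanSpace ℝ (Fin n)) X] (x : X) :
    ∃ U C : Set X, IsOpen U ∧ IsCompact C ∧ C ⊆ U ∧ C ∈ 𝓝 x ∧
      ∀ α : C(X, UnitAddCircle), ∃ φ : X → ℝ, ContinuousOn φ U ∧
        ∀ y ∈ U, ((φ y : ℝ) : UnitAddCircle) = α y := by
  set e := chartAt (EuclideanSpace ℝ (Fin n)) x with he
  have hx : x ∈ e.source := mem_chart_source _ x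
  have htar : e.target ∈ 𝓝 (e x) := e.open_target.mem_nhds (e.map_source hx)
  obtain ⟨r, hr, hball⟩ := Metric.mem_nhds_iff.mp htar
  have hsub : Metric.closedBall (e x) (r/2) ⊆ Metric.ball (e x) r :=
    Metric.closedBall_subset_ball (by linarith)
  refine ⟨e.source ∩ e ⁻¹' Metric.ball (e x) r, e.symm '' Metric.closedBall (e x) (r/2),
    e.isOpen_inter_preimage Metric.isOpen_ball, ?_, ?_, ?_, ?_⟩
  · exact (isCompact_closedBall _ _).image_of_continuousOn
      (e.continuousOn_symm.mono (hsub.trans hball))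
  · rintro _ ⟨z, hz, rfl⟩
    refine ⟨e.map_target (hball (hsub hz)), ?_⟩
    rw [mem_preimage, e.right_inv (hball (hsub hz))]
    exact hsub hz
  · have h1 : e.source ∩ e ⁻¹' Metric.ball (e x) (r/2) ∈ 𝓝 x :=
      (e.isOpen_inter_preimage Metric.isOpen_ball).mem_nhds
        ⟨hx, by simpa using half_pos hr⟩
    refine Filter.mem_of_superset h1 ?_
    rintro y ⟨hy1, hy2⟩
    exact ⟨e y, Metric.ball_subset_closedBall hy2, e.left_inv hy1⟩
  · intro α
    have : Nonempty (Metric.ball (e x) r) := ⟨⟨e x, Metric.mem_ball_self hr⟩⟩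
    have : ContractibleSpace (Metric.ball (e x) r) :=
      (convex_ball (e x) r).contractibleSpace ⟨e x, Metric.mem_ball_self hr⟩
    have : LocallyPathConnectedSpace (Metric.ball (e x) r) :=
      Metric.isOpen_ball.locallyPathConnectedSpace
    let f : C(Metric.ball (e x) r, UnitAddCircle) :=
      ⟨fun z => α (e.symm z.1), α.continuous.comp
        (e.continuousOn_symm.comp_continuous continuous_subtype_val (fun z => hball z.2))⟩
    let z₀ : Metric.ball (e x) r := ⟨e x, Metric.mem_ball_self hr⟩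
    obtain ⟨e₀, -, he₀⟩ := AddCircle.eq_coe_Ico (p := (1 : ℝ)) (f z₀)
    obtain ⟨φ, ⟨-, hφ⟩, -⟩ := isCov.existsUnique_continuousMap_lifts f z₀ e₀ he₀
    classical
    refine ⟨fun y => if h : e y ∈ Metric.ball (e x) r then φ ⟨e y, h⟩ else 0, ?_, ?_⟩
    · rw [continuousOn_iff_continuous_domRestrict]
      have : ((e.source ∩ e ⁻¹' Metric.ball (e x) r).domRestrict
          (fun y => if h : e y ∈ Metric.ball (e x) r then φ ⟨e y, h⟩ else 0)) =
          fun y : ↥(e.source ∩ e ⁻¹' Metric.ball (e x) r) => φ ⟨e y.1, y.2.2⟩ := by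
        ext y
        rw [domRestrict_apply, dif_pos (show e y.1 ∈ Metric.ball (e x) r from y.2.2)]
      rw [this]
      refine φ.continuous.comp ?_
      refine Continuous.subtype_mk ?_ _
      exact (e.continuousOn.mono inter_subset_left).domRestrict
    · rintro y ⟨hy1, hy2⟩
      have h1 : e y ∈ Metric.ball (e x) r := hy2
      simp only [dif_pos h1]
      have := congr_fun hφ ⟨e y, h1⟩
      simp only [Function.comp_apply, f, ContinuousMap.coe_mk] at this
      rw [this, e.left_inv hy1]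

/-- Abstract finite generation statement. -/
lemma isNoetherian_quot [CompactSpace X] [T2Space X] [LocallyConnectedSpace X]
    (h : ∀ x : X, ∃ U C : Set X, IsOpen U ∧ IsCompact C ∧ C ⊆ U ∧ C ∈ 𝓝 x ∧
      ∀ α : C(X, UnitAddCircle), ∃ φ : X → ℝ, ContinuousOn φ U ∧
        ∀ y ∈ U, ((φ y : ℝ) : UnitAddCircle) = α y) :
    IsNoetherian ℤ (C(X, UnitAddCircle) ⧸ liftable X) := by
  classical
  choose U C hUo hCc hCU hCx hlift using h
  obtain ⟨t, ht⟩ := CompactSpace.elim_nhds_subcover C hCx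
  -- sample points
  have hsample : ∀ i j : X, ∃ s : Finset X, ∀ x ∈ C i ∩ C j, ∃ w ∈ s, ∃ W : Set X,
      IsPreconnected W ∧ W ⊆ U i ∩ U j ∧ x ∈ W ∧ w ∈ W := by
    intro i j
    have hc : IsCompact (C i ∩ C j) := (hCc i).inter (hCc j)
    have hloc : ∀ x ∈ C i ∩ C j, ∃ V ∈ 𝓝[C i ∩ C j] x, ∃ w : X, ∃ W : Set X,
        IsPreconnected W ∧ W ⊆ U i ∩ U j ∧ V ⊆ W ∧ w ∈ W := by
      intro x hx
      have hxU : x ∈ U i ∩ U j := ⟨hCU i hx.1, hCU j hx.2⟩
      obtain ⟨W, hW1, hW2, hW3, hW4⟩ := locallyConnectedSpace_iff_subsets_isOpen_isConnected.mp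
        inferInstance x (U i ∩ U j) (((hUo i).inter (hUo j)).mem_nhds hxU)
      exact ⟨W, mem_nhdsWithin_of_mem_nhds (hW2.mem_nhds hW3), x, W, hW4.isPreconnected, hW1,
        subset_rfl, hW3⟩
    choose! V hV w W hW1 hW2 hW3 hW4 using hloc
    obtain ⟨s, hs1, hs2⟩ := hc.elim_nhdsWithin_subcover V hV
    classical
    refine ⟨s.image w, fun x hx => ?_⟩
    obtain ⟨y, hy, hxy⟩ := mem_iUnion₂.mp (hs2 hx)
    exact ⟨w y, Finset.mem_image_of_mem _ hy, W y, hW1 y (hs1 y hy), hW2 y (hs1 y hy),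
      hW3 y (hs1 y hy) hxy, hW4 y (hs1 y hy)⟩
  choose s hs using hsample
  -- the group of functions with local lifts
  let B : AddSubgroup (C(X, UnitAddCircle) × (t → X → ℝ)) :=
    { carrier := {b | ∀ i : t, ContinuousOn (b.2 i) (U i) ∧
        ∀ y ∈ U i, ((b.2 i y : ℝ) : UnitAddCircle) = b.1 y}
      zero_mem' := fun i => ⟨continuousOn_const, fun y _ => by simp⟩
      add_mem' := by
        intro a b ha hb i
        refine ⟨(ha i).1.add (hb i).1, fun y hy => ?_⟩
        have h1 := (ha i).2 y hy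
        have h2 := (hb i).2 y hy
        simp only [Prod.snd_add, Pi.add_apply, Prod.fst_add, ContinuousMap.add_apply]
        rw [AddCircle.coe_add, h1, h2]
      neg_mem' := by
        intro a ha i
        refine ⟨(ha i).1.neg, fun y hy => ?_⟩
        have h1 := (ha i).2 y hy
        simp only [Prod.snd_neg, Pi.neg_apply, Prod.fst_neg, ContinuousMap.neg_apply]
        rw [AddCircle.coe_neg, h1] }
  let π : B →+ C(X, UnitAddCircle) ⧸ liftable X :=
    (QuotientAddGroup.mk' (liftable X)).comp ((AddMonoidHom.fst _ _).comp B.subtype)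
  have hπ : Function.Surjective π := by
    intro q
    obtain ⟨α, rfl⟩ := QuotientAddGroup.mk'_surjective _ q
    choose φ hφ1 hφ2 using fun i : t => hlift i α
    exact ⟨⟨(α, φ), fun i => ⟨hφ1 i, hφ2 i⟩⟩, rfl⟩
  -- the index set of the samples
  let J : Type _ := Σ p : t × t, s p.1 p.2
  let D : B →+ (J → ℤ) := AddMonoidHom.mk'
    (fun b q => if (q.2.1 : X) ∈ U q.1.1 ∩ U q.1.2 then
      ⌊b.1.2 q.1.1 q.2.1 - b.1.2 q.1.2 q.2.1⌋ else 0) (by
    intro a b
    funext q
    simp only [Pi.add_apply]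
    by_cases hq : (q.2.1 : X) ∈ U q.1.1 ∩ U q.1.2
    · simp only [if_pos hq]
      have hint : ∀ b : B, ∃ n : ℤ, b.1.2 q.1.1 q.2.1 - b.1.2 q.1.2 q.2.1 = n := by
        intro b
        apply exists_int_of_coe_eq
        rw [(b.2 q.1.1).2 _ hq.1, (b.2 q.1.2).2 _ hq.2]
      obtain ⟨n, hn⟩ := hint a
      obtain ⟨m, hm⟩ := hint b
      have : (a + b : B).1.2 q.1.1 q.2.1 - (a + b : B).1.2 q.1.2 q.2.1 =
          ((n + m : ℤ) : ℝ) := by
        push_cast
        rw [← hn, ← hm]
        simp only [Prod.snd_add, Pi.add_apply]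
        ring
      rw [this, hn, hm, Int.floor_intCast, Int.floor_intCast, Int.floor_intCast]
    · simp only [if_neg hq, add_zero])
  refine isNoetherian_of_maps π D hπ ?_
  intro b hb
  -- the local lifts agree
  have hagree : ∀ i j : t, ∀ x ∈ C i ∩ C j, b.1.2 i x = b.1.2 j x := by
    intro i j x hx
    obtain ⟨w, hw, W, hW1, hW2, hxW, hwW⟩ := hs i j x hx
    have h1 : b.1.2 i x - b.1.2 j x = b.1.2 i w - b.1.2 j w := by
      refine const_of_int hW1 (fun y => b.1.2 i y - b.1.2 j y) ?_ ?_ hxW hwW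
      · exact ((b.2 i).1.mono (hW2.trans inter_subset_left)).sub
          ((b.2 j).1.mono (hW2.trans inter_subset_right))
      · intro y hy
        apply exists_int_of_coe_eq
        rw [(b.2 i).2 _ (hW2 hy).1, (b.2 j).2 _ (hW2 hy).2]
    have h2 := congr_fun hb (⟨(i, j), ⟨w, hw⟩⟩ : J)
    have h3 : w ∈ U i ∩ U j := hW2 hwW
    have h4 : ⌊b.1.2 i w - b.1.2 j w⌋ = 0 := by
      change (if w ∈ U i ∩ U j then ⌊b.1.2 i w - b.1.2 j w⌋ else 0) = 0 at h2
      rwa [if_pos h3] at h2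
    obtain ⟨n, hn⟩ : ∃ n : ℤ, b.1.2 i w - b.1.2 j w = n := by
      apply exists_int_of_coe_eq
      rw [(b.2 i).2 _ h3.1, (b.2 j).2 _ h3.2]
    rw [hn, Int.floor_intCast] at h4
    rw [hn, h4] at h1
    simp only [Int.cast_zero] at h1
    linarith
  -- glue
  have hcov : ∀ x : X, ∃ i : t, x ∈ C i := by
    intro x
    have : x ∈ ⋃ i ∈ t, C i := by rw [ht]; exact mem_univ x
    obtain ⟨i, hi, hx⟩ := mem_iUnion₂.mp this
    exact ⟨⟨i, hi⟩, hx⟩
  choose κ hκ using hcov
  change ((b.1.1 : C(X, UnitAddCircle)) : C(X, UnitAddCircle) ⧸ liftable X) = 0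
  rw [QuotientAddGroup.eq_zero_iff, mem_liftable_iff]
  have hΦ : ∀ (i : t) (x : X), x ∈ C i → b.1.2 (κ x) x = b.1.2 i x := fun i x hx =>
    hagree _ _ x ⟨hκ x, hx⟩
  refine ⟨⟨fun x => b.1.2 (κ x) x, ?_⟩, fun x => ?_⟩
  · refine (locallyFinite_of_finite (fun i : t => C i)).continuous ?_ ?_ ?_
    · rw [eq_univ_iff_forall]
      exact fun x => mem_iUnion.mpr ⟨κ x, hκ x⟩
    · exact fun i => (hCc i).isClosed
    · intro i
      exact ((b.2 i).1.mono (hCU i)).congr (fun x hx => hΦ i x hx)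
  · exact (b.2 (κ x)).2 x (hCU _ (hκ x))

theorem fg_compact [CompactSpace X] [T2Space X] [ChartedSpace (EuclideanSpace ℝ (Fin n)) X] :
    IsNoetherian ℤ (C(X, UnitAddCircle) ⧸ liftable X) := by
  have : LocallyConnectedSpace X :=
    ChartedSpace.locallyConnectedSpace (EuclideanSpace ℝ (Fin n)) X
  exact isNoetherian_quot (fun x => exists_good_nhd (n := n) x)

end Pool.Agent.Helper2.Genus
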