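import Mathlib
import Pool.Agent.Helper2.Genus.Criterion

/-!
# Word norm on a finitely generated abelian group, and the length function of a representation
-/

set_option autoImplicit false

open Set

namespace Pool.Agent.Helper2.Genus

open Pool.Agent.Helper50.Ends

section Norm

variable {A : Type*} [AddCommGroup A] {r : ℕ}

/-- The word norm with respect to the family `γ`. -/
noncomputable def wnorm (γ : Fin r → A) (a : A) : ℕ :=
  sInf {n : ℕ | ∃ c : Fin r → ℤ, a = ∑ i, c i • γ i ∧ ∑ i, (c i).natAbs = n}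

variable {γ : Fin r → A}

lemma wnorm_le {a : A} (c : Fin r → ℤ) (h : a = ∑ i, c i • γ i) :
    wnorm γ a ≤ ∑ i, (c i).natAbs :=
  Nat.sInf_le ⟨c, h, rfl⟩

lemma wnorm_spec (hγ : Submodule.span ℤ (range γ) = ⊤) (a : A) :
    ∃ c : Fin r → ℤ, a = ∑ i, c i • γ i ∧ ∑ i, (c i).natAbs = wnorm γ a := by
  have : a ∈ Submodule.span ℤ (range γ) := by rw [hγ]; trivial
  obtain ⟨c, hc⟩ := Submodule.mem_span_range_iff_exists_fun (R := ℤ) |>.mp this
  have hne : {n : ℕ | ∃ c : Fin r → ℤ, a = ∑ i, c i • γ i ∧ ∑ i, (c i).natAbs = n}.Nonempty :=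
    ⟨_, c, hc.symm, rfl⟩
  exact Nat.sInf_mem hne

lemma wnorm_zero : wnorm γ 0 = 0 := by
  have := wnorm_le (γ := γ) (a := 0) 0 (by simp)
  simpa using this

lemma wnorm_add (hγ : Submodule.span ℤ (range γ) = ⊤) (a b : A) :
    wnorm γ (a + b) ≤ wnorm γ a + wnorm γ b := by
  obtain ⟨c, hc1, hc2⟩ := wnorm_spec hγ a
  obtain ⟨d, hd1, hd2⟩ := wnorm_spec hγ b
  rw [← hc2, ← hd2, ← Finset.sum_add_distrib]
  refine (wnorm_le (γ := γ) (c + d) ?_).trans (Finset.sum_le_sum fun i _ => Int.natAbs_add_le _ _)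
  simp only [Pi.add_apply, add_smul, Finset.sum_add_distrib]
  rw [← hc1, ← hd1]

lemma wnorm_zsmul (hγ : Submodule.span ℤ (range γ) = ⊤) (n : ℤ) (a : A) :
    wnorm γ (n • a) ≤ n.natAbs * wnorm γ a := by
  obtain ⟨c, hc1, hc2⟩ := wnorm_spec hγ a
  rw [← hc2, Finset.mul_sum]
  refine (wnorm_le (γ := γ) (n • c) ?_).trans (Finset.sum_le_sum fun i _ => ?_)
  · simp only [Pi.smul_apply, smul_assoc, ← Finset.smul_sum]
    rw [← hc1]
  · simp [Int.natAbs_mul]

lemma wnorm_sum (hγ : Submodule.span ℤ (range γ) = ⊤) (s : Finset (Fin r)) (f : Fin r → A) :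
    wnorm γ (∑ i ∈ s, f i) ≤ ∑ i ∈ s, wnorm γ (f i) := by
  classical
  induction s using Finset.induction_on with
  | empty => simp [wnorm_zero]
  | insert i s hi ih =>
    rw [Finset.sum_insert hi, Finset.sum_insert hi]
    exact (wnorm_add hγ _ _).trans (by omega)

/-- The distortion of an endomorphism. -/
noncomputable def dist (γ : Fin r → A) (h : A →+ A) : ℕ :=
  Finset.univ.sup (fun i => wnorm γ (h (γ i)))

lemma wnorm_map_le (hγ : Submodule.span ℤ (range γ) = ⊤) (h : A →+ A) (a : A) :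
    wnorm γ (h a) ≤ dist γ h * wnorm γ a := by
  obtain ⟨c, hc1, hc2⟩ := wnorm_spec hγ a
  rw [← hc2, Finset.mul_sum]
  conv_lhs => rw [hc1, map_sum]
  refine (wnorm_sum hγ _ _).trans (Finset.sum_le_sum fun i _ => ?_)
  rw [map_zsmul, mul_comm]
  refine (wnorm_zsmul hγ _ _).trans (Nat.mul_le_mul_left _ ?_)
  exact Finset.le_sup (f := fun i => wnorm γ (h (γ i))) (Finset.mem_univ i)

lemma wnorm_gen_le (i : Fin r) : wnorm γ (γ i) ≤ 1 := by
  classical
  refine (wnorm_le (γ := γ) (Pi.single i 1) ?_).trans ?_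
  · rw [Finset.sum_eq_single i]
    · simp
    · intro j _ hj
      simp [Pi.single_eq_of_ne hj]
    · simp
  · rw [Finset.sum_eq_single i]
    · simp
    · intro j _ hj
      simp [Pi.single_eq_of_ne hj]
    · simp

lemma dist_mul_le (hγ : Submodule.span ℤ (range γ) = ⊤) (h k : AddMonoid.End A) :
    dist γ (h * k) ≤ dist γ h * dist γ k := by
  refine Finset.sup_le fun i _ => ?_
  change wnorm γ (h (k (γ i))) ≤ _
  refine (wnorm_map_le hγ h _).trans (Nat.mul_le_mul_left _ ?_)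
  exact Finset.le_sup (f := fun i => wnorm γ (k (γ i))) (Finset.mem_univ i)

lemma dist_one_le : dist γ (1 : AddMonoid.End A) ≤ 1 :=
  Finset.sup_le fun i _ => wnorm_gen_le i

/-- An integer-valued homomorphism is bounded by a multiple of the word norm. -/
lemma exists_bound_hom (hγ : Submodule.span ℤ (range γ) = ⊤) (D : A →+ ℤ) :
    ∃ C : ℕ, ∀ a, (D a).natAbs ≤ C * wnorm γ a := by
  refine ⟨Finset.univ.sup (fun i => (D (γ i)).natAbs), fun a => ?_⟩
  obtain ⟨c, hc1, hc2⟩ := wnorm_spec hγ a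
  rw [← hc2, Finset.mul_sum]
  conv_lhs => rw [hc1, map_sum]
  refine (Int.natAbs_sum_le _ _).trans (Finset.sum_le_sum fun i _ => ?_)
  rw [map_zsmul, smul_eq_mul, Int.natAbs_mul, mul_comm]
  exact Nat.mul_le_mul_right _
    (Finset.le_sup (f := fun i => (D (γ i)).natAbs) (Finset.mem_univ i))

end Norm

section Rep

variable {A : Type*} [AddCommGroup A] {r : ℕ} (γ : Fin r → A)
variable {G : Type*} [Group G] (ρ : G →* AddMonoid.End A)

/-- The multiplicative size of a group element. -/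
noncomputable def size (g : G) : ℕ := max 1 (max (dist γ (ρ g)) (dist γ (ρ g⁻¹)))

lemma one_le_size (g : G) : 1 ≤ size γ ρ g := le_max_left _ _

lemma size_one : size γ ρ 1 = 1 := by
  have h : dist γ (ρ (1 : G)) ≤ 1 := by rw [map_one]; exact dist_one_le
  unfold size
  rw [inv_one, max_self]
  exact max_eq_left h

lemma size_inv (g : G) : size γ ρ g⁻¹ = size γ ρ g := by
  unfold size
  rw [inv_inv, max_comm (dist γ (ρ g⁻¹))]

lemma size_mul_le (hγ : Submodule.span ℤ (range γ) = ⊤) (g h : G) :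
    size γ ρ (g * h) ≤ size γ ρ g * size γ ρ h := by
  have e1 := one_le_size γ ρ g
  have e2 := one_le_size γ ρ h
  refine max_le ?_ (max_le ?_ ?_)
  · exact Nat.one_le_iff_ne_zero.mpr (Nat.mul_ne_zero (by omega) (by omega))
  · rw [map_mul]
    exact (dist_mul_le hγ _ _).trans (Nat.mul_le_mul ((le_max_left _ _).trans (le_max_right _ _))
      ((le_max_left _ _).trans (le_max_right _ _)))
  · rw [mul_inv_rev, map_mul, mul_comm (size γ ρ g)]
    exact (dist_mul_le hγ _ _).trans (Nat.mul_le_mul ((le_max_right _ _).trans (le_max_right _ _))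
      ((le_max_right _ _).trans (le_max_right _ _)))

lemma rho_inv_congr {g h : G} (hgh : ρ g = ρ h) : ρ g⁻¹ = ρ h⁻¹ := by
  have h1 : ρ g⁻¹ * ρ g = 1 := by rw [← map_mul, inv_mul_cancel, map_one]
  have h2 : ρ h * ρ h⁻¹ = 1 := by rw [← map_mul, mul_inv_cancel, map_one]
  calc ρ g⁻¹ = ρ g⁻¹ * (ρ h * ρ h⁻¹) := by rw [h2, mul_one]
    _ = (ρ g⁻¹ * ρ g) * ρ h⁻¹ := by rw [← hgh, mul_assoc]
    _ = ρ h⁻¹ := by rw [h1, one_mul]

/-- The pseudometric defined by a locally constant representation on a finitely generated abelian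
group. -/
noncomputable def repMetric [TopologicalSpace G] (hρ : IsLocallyConstant ρ)
    (hγ : Submodule.span ℤ (range γ) = ⊤) : LeftPseudometric G where
  d x y := Real.log (size γ ρ (x⁻¹ * y))
  d_self x := by simp [size_one]
  d_symm x y := by
    rw [← size_inv, mul_inv_rev, inv_inv]
  d_triangle x y z := by
    have h1 : x⁻¹ * z = (x⁻¹ * y) * (y⁻¹ * z) := by group
    have e1 := one_le_size γ ρ (x⁻¹ * y)
    have e2 := one_le_size γ ρ (y⁻¹ * z)
    have e3 := one_le_size γ ρ (x⁻¹ * z)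
    rw [← Real.log_mul (by positivity) (by positivity)]
    apply Real.log_le_log (by positivity)
    rw [h1]
    exact_mod_cast size_mul_le γ ρ hγ _ _
  d_left g x y := by
    have : (g * x)⁻¹ * (g * y) = x⁻¹ * y := by group
    rw [this]
  d_cont := by
    rw [continuous_iff_continuousAt]
    rintro ⟨x, y⟩
    have hx := (IsLocallyConstant.iff_eventually_eq ρ).mp hρ x
    have hy := (IsLocallyConstant.iff_eventually_eq ρ).mp hρ y
    have : ∀ᶠ p : G × G in nhds (x, y),
        Real.log (size γ ρ (p.1⁻¹ * p.2)) = Real.log (size γ ρ (x⁻¹ * y)) := by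
      filter_upwards [hx.prod_nhds hy] with p hp
      obtain ⟨h1, h2⟩ := hp
      have h3 : ρ (p.1⁻¹ * p.2) = ρ (x⁻¹ * y) := by
        rw [map_mul, map_mul, h2, rho_inv_congr ρ h1]
      unfold size
      rw [h3, rho_inv_congr ρ h3]
    exact (continuousAt_const (y := Real.log (size γ ρ (x⁻¹ * y)))).congr
      (this.mono fun p hp => hp.symm)

/-- **Criterion.** A topological group with a locally constant representation on a finitely
generated abelian group, in which the powers of `f` grow and there are elements far away from all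
the powers of `f`, does not have two ends. -/
theorem not_two_of_rep [TopologicalSpace G] [IsNoetherian ℤ A] (hρ : IsLocallyConstant ρ)
    (S : Set G) (hS : CoarselyBounded S) (hgen : Subgroup.closure S = ⊤) (f : G)
    (D D' : A →+ ℤ) (a b : A) (h1 : ∀ n : ℤ, n.natAbs ≤ (D (ρ (f ^ n) a)).natAbs)
    (h2 : ∀ k : ℕ, ∃ g : G, ∀ n : ℤ, k ≤ (D' (ρ (f ^ (-n) * g) b)).natAbs) :
    numEnds (cayley S) ≠ 2 := by
  obtain ⟨r, γ, hγ⟩ := Module.Finite.exists_fin (R := ℤ) (M := A)
  obtain ⟨C, hC⟩ := exists_bound_hom hγ D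
  obtain ⟨C', hC'⟩ := exists_bound_hom hγ D'
  have key : ∀ (D : A →+ ℤ) (C : ℕ), (∀ a, (D a).natAbs ≤ C * wnorm γ a) → ∀ (g : G) (a : A),
      (D (ρ g a)).natAbs ≤ C * wnorm γ a * size γ ρ g := by
    intro D C hC g a
    refine (hC _).trans ?_
    rw [mul_assoc]
    refine Nat.mul_le_mul_left _ ?_
    rw [mul_comm]
    exact (wnorm_map_le hγ (ρ g) a).trans
      (Nat.mul_le_mul_right _ ((le_max_left _ _).trans (le_max_right _ _)))
  refine not_two_of_far S hS hgen (repMetric γ ρ hρ hγ) f ?_ ?_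
  · intro R
    set M : ℕ := ⌈((C * wnorm γ a : ℕ) : ℝ) * Real.exp R⌉₊ with hM
    refine (Set.finite_Icc (-(M : ℤ)) M).subset ?_
    intro n hn
    have hn' : Real.log (size γ ρ ((1 : G)⁻¹ * f ^ n)) ≤ R := hn
    rw [inv_one, one_mul] at hn'
    have e0 := one_le_size γ ρ (f ^ n)
    have e1 : ((size γ ρ (f ^ n) : ℕ) : ℝ) ≤ Real.exp R := by
      rw [← Real.log_le_iff_le_exp (by positivity)]
      exact hn'
    have e2 := (h1 n).trans (key D C hC (f ^ n) a)
    have e3 : ((n.natAbs : ℕ) : ℝ) ≤ ((C * wnorm γ a : ℕ) : ℝ) * Real.exp R := by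
      calc ((n.natAbs : ℕ) : ℝ) ≤ ((C * wnorm γ a * size γ ρ (f ^ n) : ℕ) : ℝ) := by
            exact_mod_cast e2
        _ = ((C * wnorm γ a : ℕ) : ℝ) * ((size γ ρ (f ^ n) : ℕ) : ℝ) := by push_cast; ring
        _ ≤ _ := by gcongr
    have e4 : n.natAbs ≤ M := by
      have := e3.trans (Nat.le_ceil _)
      exact_mod_cast this
    rw [mem_Icc]
    omega
  · intro R
    obtain ⟨g, hg⟩ := h2 (⌈((C' * wnorm γ b : ℕ) : ℝ) * Real.exp R⌉₊ + 1)
    refine ⟨g, fun n => ?_⟩
    change R < Real.log (size γ ρ ((f ^ n)⁻¹ * g))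
    by_contra hle
    rw [not_lt] at hle
    rw [← zpow_neg] at hle
    have e0 := one_le_size γ ρ (f ^ (-n) * g)
    have e1 : ((size γ ρ (f ^ (-n) * g) : ℕ) : ℝ) ≤ Real.exp R := by
      rw [← Real.log_le_iff_le_exp (by positivity)]
      exact hle
    have e2 := (hg n).trans (key D' C' hC' (f ^ (-n) * g) b)
    have e3 : ((⌈((C' * wnorm γ b : ℕ) : ℝ) * Real.exp R⌉₊ + 1 : ℕ) : ℝ) ≤
        ((C' * wnorm γ b : ℕ) : ℝ) * Real.exp R := by
      calc ((⌈((C' * wnorm γ b : ℕ) : ℝ) * Real.exp R⌉₊ + 1 : ℕ) : ℝ) ≤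
            ((C' * wnorm γ b * size γ ρ (f ^ (-n) * g) : ℕ) : ℝ) := by
            exact_mod_cast e2
        _ = ((C' * wnorm γ b : ℕ) : ℝ) * ((size γ ρ (f ^ (-n) * g) : ℕ) : ℝ) := by
            push_cast; ring
        _ ≤ _ := by gcongr
    have e4 := Nat.le_ceil (((C' * wnorm γ b : ℕ) : ℝ) * Real.exp R)
    push_cast at e3 e4
    linarith

end Rep

end Pool.Agent.Helper2.Genus
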