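import Mathlib
import Pool.Agent.Helper2.Genus.Action
import Pool.Agent.Helper2.Genus.FG
import Pool.Agent.Helper2.Genus.Norm

/-!
# Extension of compactly supported functions and homeomorphisms along open embeddings
-/

set_option autoImplicit false

open Topology unitInterval Set

namespace Pool.Agent.Helper2.Genus

variable {X Y Z : Type*} [TopologicalSpace X] [TopologicalSpace Y] [TopologicalSpace Z]

lemma continuous_extend [T2Space X] {j : Y → X} (hj : IsOpenEmbedding j) {K : Set Y}
    (hK : IsCompact K) {f : Y → Z} (hf : Continuous f) {g : X → Z} (hg : Continuous g)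
    (h : ∀ y ∉ K, f y = g (j y)) : Continuous (Function.extend j f g) := by
  have hcomp : Function.extend j f g ∘ j = f := by
    funext y
    exact hj.injective.extend_apply f g y
  rw [continuous_iff_continuousAt]
  intro x
  by_cases hx : ∃ y, j y = x
  · obtain ⟨y, rfl⟩ := hx
    rw [← hj.continuousAt_iff, hcomp]
    exact hf.continuousAt
  · have hcl : IsClosed (j '' K) := (hK.image hj.continuous).isClosed
    have hxK : x ∈ (j '' K)ᶜ := by
      rintro ⟨y, -, hy⟩
      exact hx ⟨y, hy⟩
    have heq : Function.extend j f g =ᶠ[𝓝 x] g := by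
      filter_upwards [hcl.isOpen_compl.mem_nhds hxK] with z hz
      by_cases hz2 : ∃ y, j y = z
      · obtain ⟨y, rfl⟩ := hz2
        rw [hj.injective.extend_apply]
        exact h y (fun hy => hz ⟨y, hy, rfl⟩)
      · exact Function.extend_apply' _ _ _ hz2
    exact hg.continuousAt.congr heq.symm

/-- Extension by zero. -/
noncomputable def ext0 [T2Space X] {j : Y → X} (hj : IsOpenEmbedding j) : Pcs Y →+ Pcs X where
  toFun α := ⟨⟨Function.extend j α.1 (fun _ => 0), by
      obtain ⟨K, hK, h⟩ := α.2
      exact continuous_extend hj hK α.1.continuous continuous_const h⟩, by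
    obtain ⟨K, hK, h⟩ := α.2
    refine ⟨j '' K, hK.image hj.continuous, fun x hx => ?_⟩
    change Function.extend j α.1 (fun _ => 0) x = 0
    by_cases hx2 : ∃ y, j y = x
    · obtain ⟨y, rfl⟩ := hx2
      rw [hj.injective.extend_apply]
      exact h y (fun hy => hx ⟨y, hy, rfl⟩)
    · exact Function.extend_apply' _ _ _ hx2⟩
  map_zero' := by
    ext x
    change Function.extend j (fun _ => (0 : UnitAddCircle)) (fun _ => 0) x = 0
    by_cases hx2 : ∃ y, j y = x
    · obtain ⟨y, rfl⟩ := hx2
      rw [hj.injective.extend_apply]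
    · exact Function.extend_apply' _ _ _ hx2
  map_add' α β := by
    ext x
    change Function.extend j (fun y => α.1 y + β.1 y) (fun _ => (0 : UnitAddCircle)) x =
      Function.extend j α.1 (fun _ => 0) x + Function.extend j β.1 (fun _ => 0) x
    by_cases hx2 : ∃ y, j y = x
    · obtain ⟨y, rfl⟩ := hx2
      simp only [hj.injective.extend_apply]
    · rw [Function.extend_apply' _ _ _ hx2, Function.extend_apply' _ _ _ hx2,
        Function.extend_apply' _ _ _ hx2, add_zero]

lemma ext0_apply [T2Space X] {j : Y → X} (hj : IsOpenEmbedding j) (α : Pcs Y) (y : Y) :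
    (ext0 hj α).1 (j y) = α.1 y :=
  hj.injective.extend_apply α.1 (fun _ => 0) y

/-- Extension of a compactly supported homeomorphism by the identity. -/
noncomputable def extHomeo [T2Space X] {j : Y → X} (hj : IsOpenEmbedding j) (τ : Y ≃ₜ Y)
    (h : ∃ K : Set Y, IsCompact K ∧ ∀ y ∉ K, τ y = y) : X ≃ₜ X where
  toFun := Function.extend j (j ∘ τ) id
  invFun := Function.extend j (j ∘ τ.symm) id
  left_inv x := by
    by_cases hx : ∃ y, j y = x
    · obtain ⟨y, rfl⟩ := hx
      rw [hj.injective.extend_apply, Function.comp_apply, hj.injective.extend_apply,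
        Function.comp_apply, τ.symm_apply_apply]
    · have : Function.extend j (j ∘ τ) id x = x := Function.extend_apply' _ _ _ hx
      rw [this]
      exact Function.extend_apply' _ _ _ hx
  right_inv x := by
    by_cases hx : ∃ y, j y = x
    · obtain ⟨y, rfl⟩ := hx
      rw [hj.injective.extend_apply, Function.comp_apply, hj.injective.extend_apply,
        Function.comp_apply, τ.apply_symm_apply]
    · have : Function.extend j (j ∘ τ.symm) id x = x := Function.extend_apply' _ _ _ hx
      rw [this]
      exact Function.extend_apply' _ _ _ hx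
  continuous_toFun := by
    obtain ⟨K, hK, h⟩ := h
    refine continuous_extend hj hK (hj.continuous.comp τ.continuous) continuous_id ?_
    intro y hy
    simp [h y hy]
  continuous_invFun := by
    obtain ⟨K, hK, h⟩ := h
    refine continuous_extend hj hK (hj.continuous.comp τ.symm.continuous) continuous_id ?_
    intro y hy
    have : τ.symm y = y := by
      rw [Homeomorph.symm_apply_eq]
      exact (h y hy).symm
    simp [this]

lemma extHomeo_apply [T2Space X] {j : Y → X} (hj : IsOpenEmbedding j) (τ : Y ≃ₜ Y)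
    (h : ∃ K : Set Y, IsCompact K ∧ ∀ y ∉ K, τ y = y) (y : Y) :
    extHomeo hj τ h (j y) = j (τ y) :=
  hj.injective.extend_apply _ _ y

lemma extHomeo_zpow [T2Space X] {j : Y → X} (hj : IsOpenEmbedding j) (τ : Y ≃ₜ Y)
    (h : ∃ K : Set Y, IsCompact K ∧ ∀ y ∉ K, τ y = y) (n : ℤ) (y : Y) :
    (extHomeo hj τ h ^ n) (j y) = j ((τ ^ n) y) := by
  let P : Subgroup ((X ≃ₜ X) × (Y ≃ₜ Y)) :=
    { carrier := {p | ∀ y, p.1 (j y) = j (p.2 y)}
      one_mem' := fun y => rfl
      mul_mem' := by
        intro a b ha hb y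
        change a.1 (b.1 (j y)) = j (a.2 (b.2 y))
        rw [hb, ha]
      inv_mem' := by
        intro a ha y
        change a.1.symm (j y) = j (a.2.symm y)
        rw [Homeomorph.symm_apply_eq, ha, a.2.apply_symm_apply] }
  have h1 : (extHomeo hj τ h, τ) ∈ P := fun y => extHomeo_apply hj τ h y
  exact (P.zpow_mem h1 n) y

/-- The group `Lam` of the complement of a closed set in a compact space. -/
lemma lam_noetherian [T2Space X] [IsNoetherian ℤ (C(X, UnitAddCircle) ⧸ liftable X)]
    {j : Y → X} (hj : IsOpenEmbedding j) : IsNoetherian ℤ (Lam Y) := by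
  refine isNoetherian_of_maps (B := Pcs Y) (QuotientAddGroup.mk' _)
    ((QuotientAddGroup.mk' (liftable X)).comp ((Pcs X).subtype.comp (ext0 hj)))
    (QuotientAddGroup.mk'_surjective _) ?_
  intro α hα
  have h1 : (ext0 hj α).1 ∈ liftable X := (QuotientAddGroup.eq_zero_iff _).mp hα
  refine (QuotientAddGroup.eq_zero_iff _).mpr ?_
  rw [AddSubgroup.mem_addSubgroupOf]
  have h2 := liftable_comp h1 (⟨j, hj.continuous⟩ : C(Y, X))
  convert h2 using 1
  ext y
  exact (ext0_apply hj α y).symm

/-! ### Local constancy of the action -/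

lemma act_locallyConstant [T2Space Y] [LocallyCompactSpace Y] [LocallyConnectedSpace Y]
    [IsNoetherian ℤ (Lam Y)] : IsLocallyConstant (act Y) := by
  have hind : Continuous (fun g : Y ≃ₜ Y => (⟨g, g.continuous⟩ : C(Y, Y))) :=
    continuous_induced_dom
  -- near the identity
  have hnear : ∀ᶠ g : Y ≃ₜ Y in 𝓝 1, act Y g = 1 := by
    obtain ⟨r, γ, hγ⟩ := Module.Finite.exists_fin (R := ℤ) (M := Lam Y)
    choose α hα using fun i => QuotientAddGroup.mk_surjective (γ i)
    have h1 : ∀ᶠ g : Y ≃ₜ Y in 𝓝 1, ∀ i, (α i).1.comp ⟨g, g.continuous⟩ - (α i).1 ∈ liftable Y :=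
      Filter.eventually_all.mpr fun i => eventually_sub_liftable (α i).2
    filter_upwards [h1] with g hg
    have h2 : act Y g⁻¹ = 1 := by
      have h3 : ∀ i, act Y g⁻¹ (γ i) = γ i := by
        intro i
        rw [← hα i, act_mk, mk_eq_iff]
        exact hg i
      let F : Lam Y →+ Lam Y := act Y g⁻¹
      have h4 : F.toIntLinearMap = LinearMap.id := LinearMap.ext_on_range hγ h3
      exact AddMonoidHom.ext fun q => LinearMap.congr_fun h4 q
    have h4 := rho_inv_congr (act Y) (g := g⁻¹) (h := 1) (by rw [h2, map_one])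
    rwa [inv_inv, inv_one, map_one] at h4
  rw [IsLocallyConstant.iff_eventually_eq]
  intro g₀
  have hc : Continuous (fun g : Y ≃ₜ Y => g₀⁻¹ * g) := by
    refine continuous_induced_rng.mpr ?_
    exact (ContinuousMap.continuous_postcomp
      (⟨(g₀⁻¹ : Y ≃ₜ Y), (g₀⁻¹ : Y ≃ₜ Y).continuous⟩ : C(Y, Y))).comp hind
  have ht : Filter.Tendsto (fun g : Y ≃ₜ Y => g₀⁻¹ * g) (𝓝 g₀) (𝓝 1) := by
    have := hc.tendsto g₀
    rwa [inv_mul_cancel] at this
  filter_upwards [ht.eventually hnear] with g hg
  have : g = g₀ * (g₀⁻¹ * g) := by group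
  rw [this, map_mul, hg, mul_one]

/-- The representation of the group of isotopy classes. -/
noncomputable def rep (H : Subgroup (Y ≃ₜ Y)) : MCG H →* AddMonoid.End (Lam Y) :=
  QuotientGroup.lift _ ((act Y).comp H.subtype) (by
    intro h hh
    exact act_of_isotopic hh)

lemma rep_mk (H : Subgroup (Y ≃ₜ Y)) (h : H) : rep H (h : MCG H) = act Y h.1 := rfl

lemma rep_locallyConstant [T2Space Y] [LocallyCompactSpace Y] [LocallyConnectedSpace Y]
    [IsNoetherian ℤ (Lam Y)] (H : Subgroup (Y ≃ₜ Y)) : IsLocallyConstant (rep H) := by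
  have h1 : IsLocallyConstant ((act Y) ∘ (Subtype.val : H → (Y ≃ₜ Y))) :=
    act_locallyConstant.comp_continuous continuous_subtype_val
  intro s
  have h2 := h1 s
  exact (QuotientGroup.isQuotientMap_mk (N := (isotopySubgroup Y).subgroupOf H)).isOpen_preimage.mp h2

end Pool.Agent.Helper2.Genus
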