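import Mathlib
import Pool.Agent.Helper2.Genus.Extend

/-!
# Dehn twists on the one-holed torus
-/

set_option autoImplicit false

open Topology unitInterval Set

namespace Pool.Agent.Helper2.Genus

/-- The twist `(x, y) ↦ (x + n θ(y), y)`. -/
noncomputable def shearFun (n : ℤ) (p : Handle) : Handle :=
  ⟨(p.1.1 + n • theta p.1.2, p.1.2), by
    by_cases h : 1/8 < ‖p.1.2‖
    · exact Or.inr h
    · rcases p.2 with h1 | h1
      · left
        rw [not_lt] at h
        change 1/8 < ‖p.1.1 + n • theta p.1.2‖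
        rw [theta_eq_zero (by linarith), smul_zero, add_zero]
        exact h1
      · exact absurd h1 h⟩

lemma shearFun_continuous (n : ℤ) : Continuous (shearFun n) := by
  refine Continuous.subtype_mk ?_ _
  have h1 : Continuous (fun p : Handle => p.1.1) := continuous_fst.comp continuous_subtype_val
  have h2 : Continuous (fun p : Handle => p.1.2) := continuous_snd.comp continuous_subtype_val
  exact (h1.add ((theta.continuous.comp h2).zsmul n)).prodMk h2

lemma shearFun_add (n m : ℤ) (p : Handle) : shearFun (n + m) p = shearFun n (shearFun m p) := by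
  apply Subtype.ext
  apply Prod.ext
  · simp only [shearFun]
    rw [add_smul]
    abel
  · rfl

lemma shearFun_zero (p : Handle) : shearFun 0 p = p := by
  apply Subtype.ext
  apply Prod.ext
  · simp [shearFun]
  · rfl

/-- The twist homeomorphism. -/
noncomputable def shear : Multiplicative ℤ →* (Handle ≃ₜ Handle) where
  toFun n :=
    { toFun := shearFun n.toAdd
      invFun := shearFun (-n.toAdd)
      left_inv := fun p => by rw [← shearFun_add, neg_add_cancel, shearFun_zero]
      right_inv := fun p => by rw [← shearFun_add, add_neg_cancel, shearFun_zero]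
      continuous_toFun := shearFun_continuous _
      continuous_invFun := shearFun_continuous _ }
  map_one' := by
    apply Homeomorph.ext
    intro p
    exact shearFun_zero p
  map_mul' n m := by
    apply Homeomorph.ext
    intro p
    exact shearFun_add _ _ p

/-- The swap of the coordinates. -/
def swapH : Handle ≃ₜ Handle where
  toFun p := ⟨(p.1.2, p.1.1), p.2.symm⟩
  invFun p := ⟨(p.1.2, p.1.1), p.2.symm⟩
  left_inv _ := rfl
  right_inv _ := rfl
  continuous_toFun := by
    refine Continuous.subtype_mk ?_ _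
    fun_prop
  continuous_invFun := by
    refine Continuous.subtype_mk ?_ _
    fun_prop

/-- The first twist. -/
noncomputable def twA : Handle ≃ₜ Handle := shear (Multiplicative.ofAdd 1)

/-- The second twist. -/
noncomputable def twB : Handle ≃ₜ Handle := swapH * twA * swapH

lemma twA_zpow (n : ℤ) (p : Handle) :
    ((twA ^ n) p).1 = (p.1.1 + n • theta p.1.2, p.1.2) := by
  have : twA ^ n = shear (Multiplicative.ofAdd n) := by
    rw [twA, ← map_zpow, ← ofAdd_zsmul]
    simp
  rw [this]
  rfl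

lemma swapH_mul : swapH * swapH = 1 := rfl

lemma swapH_inv : swapH⁻¹ = swapH := rfl

lemma twB_zpow (n : ℤ) (p : Handle) :
    ((twB ^ n) p).1 = (p.1.1, p.1.2 + n • theta p.1.1) := by
  have h1 : twB = swapH * twA * swapH⁻¹ := by rw [swapH_inv, twB]
  have : twB ^ n = swapH * twA ^ n * swapH⁻¹ := by rw [h1, conj_zpow]
  rw [this]
  change (swapH ((twA ^ n) (swapH p))).1 = _
  change ((((twA ^ n) (swapH p)).1.2, ((twA ^ n) (swapH p)).1.1) :
    UnitAddCircle × UnitAddCircle) = _
  rw [twA_zpow]
  rfl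

/-- The band of the first twist. -/
def bandA : Set Handle := {p | 1/4 ≤ ‖p.1.2‖}

/-- The band of the second twist. -/
def bandB : Set Handle := {p | 1/4 ≤ ‖p.1.1‖}

lemma isCompact_bandA : IsCompact bandA := by
  rw [Subtype.isCompact_iff]
  have : Subtype.val '' bandA = {p : UnitAddCircle × UnitAddCircle | 1/4 ≤ ‖p.2‖} := by
    ext p
    constructor
    · rintro ⟨q, hq, rfl⟩
      exact hq
    · intro hp
      have hp' : 1/4 ≤ ‖p.2‖ := hp
      exact ⟨⟨p, Or.inr (by linarith)⟩, hp, rfl⟩
  rw [this]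
  exact (isClosed_le continuous_const (continuous_norm.comp continuous_snd)).isCompact

lemma isCompact_bandB : IsCompact bandB := by
  have : bandB = swapH '' bandA := by
    ext p
    constructor
    · intro hp
      exact ⟨swapH p, hp, rfl⟩
    · rintro ⟨q, hq, rfl⟩
      exact hq
  rw [this]
  exact isCompact_bandA.image swapH.continuous

lemma twA_supp : ∃ K : Set Handle, IsCompact K ∧ ∀ p ∉ K, twA p = p := by
  refine ⟨bandA, isCompact_bandA, fun p hp => ?_⟩
  have hp' : ‖p.1.2‖ < 1/4 := not_le.mp hp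
  apply Subtype.ext
  have := twA_zpow 1 p
  rw [zpow_one] at this
  rw [this, theta_eq_zero hp'.le]
  simp

lemma twB_supp : ∃ K : Set Handle, IsCompact K ∧ ∀ p ∉ K, twB p = p := by
  refine ⟨bandB, isCompact_bandB, fun p hp => ?_⟩
  have hp' : ‖p.1.1‖ < 1/4 := not_le.mp hp
  apply Subtype.ext
  have := twB_zpow 1 p
  rw [zpow_one] at this
  rw [this, theta_eq_zero hp'.le]
  simp

/-- The class dual to the first coordinate. -/
noncomputable def alphaA : Pcs Handle :=
  ⟨theta.comp ⟨fun p : Handle => p.1.1, continuous_fst.comp continuous_subtype_val⟩,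
    bandB, isCompact_bandB, fun p hp => by
      have hp' : ‖p.1.1‖ < 1/4 := not_le.mp hp
      exact theta_eq_zero hp'.le⟩

/-- The class dual to the second coordinate. -/
noncomputable def alphaB : Pcs Handle :=
  ⟨theta.comp ⟨fun p : Handle => p.1.2, continuous_snd.comp continuous_subtype_val⟩,
    bandA, isCompact_bandA, fun p hp => by
      have hp' : ‖p.1.2‖ < 1/4 := not_le.mp hp
      exact theta_eq_zero hp'.le⟩

lemma norm_half : ‖((1/2 : ℝ) : UnitAddCircle)‖ = 1/2 := by
  rw [norm_coe_of_abs_le (by norm_num [abs_of_pos]), abs_of_pos (by norm_num)]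

/-- The horizontal loop. -/
noncomputable def loopA : C(UnitAddCircle, Handle) :=
  ⟨fun x => ⟨(x, ((1/2 : ℝ) : UnitAddCircle)), Or.inr (by
    change 1/8 < ‖((1/2 : ℝ) : UnitAddCircle)‖
    rw [norm_half]; norm_num)⟩, by
    refine Continuous.subtype_mk ?_ _
    fun_prop⟩

/-- The vertical loop. -/
noncomputable def loopB : C(UnitAddCircle, Handle) :=
  ⟨fun y => ⟨(((1/2 : ℝ) : UnitAddCircle), y), Or.inl (by
    change 1/8 < ‖((1/2 : ℝ) : UnitAddCircle)‖
    rw [norm_half]; norm_num)⟩, by
    refine Continuous.subtype_mk ?_ _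
    fun_prop⟩

variable {Y : Type*} [TopologicalSpace Y]

/-- The degree of a class along a loop. -/
noncomputable def degHom (ℓ : C(UnitAddCircle, Y)) : Lam Y →+ ℤ :=
  QuotientAddGroup.lift _
    (deg.comp ((ContinuousMap.compAddMonoidHom' ℓ).comp (Pcs Y).subtype)) (by
    intro α hα
    exact deg_eq_zero_of_liftable (liftable_comp hα ℓ))

lemma degHom_mk (ℓ : C(UnitAddCircle, Y)) (α : Pcs Y) :
    degHom ℓ (α : Lam Y) = deg (α.1.comp ℓ) := rfl

lemma degHom_act (ℓ : C(UnitAddCircle, Y)) (g : Y ≃ₜ Y) (α : Pcs Y) :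
    degHom ℓ (act Y g (α : Lam Y)) =
      deg (α.1.comp ((⟨(g⁻¹ : Y ≃ₜ Y), (g⁻¹ : Y ≃ₜ Y).continuous⟩ : C(Y, Y)).comp ℓ)) := rfl

variable [T2Space Y] {j : Handle → Y} (hj : IsOpenEmbedding j)

/-- The twists on the surface. -/
noncomputable def TA : Y ≃ₜ Y := extHomeo hj twA twA_supp

/-- The twists on the surface. -/
noncomputable def TB : Y ≃ₜ Y := extHomeo hj twB twB_supp

lemma deg_affine (n : ℤ) (c : UnitAddCircle) (u : C(UnitAddCircle, UnitAddCircle)) :
    deg (ContinuousMap.const _ c + n • u) = n * deg u := by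
  rw [map_add, deg_eq_zero_of_liftable (const_mem_liftable c), zero_add, map_zsmul, smul_eq_mul]

/-- Powers of the first twist seen by the first class along the vertical loop. -/
lemma degB_TA (n : ℤ) :
    degHom ((⟨j, hj.continuous⟩ : C(Handle, Y)).comp loopB)
      (act Y (TA hj ^ n) ((ext0 hj alphaA : Pcs Y) : Lam Y)) = -n := by
  rw [degHom_act]
  have h1 : (ext0 hj alphaA).1.comp
      ((⟨((TA hj ^ n)⁻¹ : Y ≃ₜ Y), ((TA hj ^ n)⁻¹ : Y ≃ₜ Y).continuous⟩ : C(Y, Y)).comp
        ((⟨j, hj.continuous⟩ : C(Handle, Y)).comp loopB)) =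
      theta.comp (ContinuousMap.const _ ((1/2 : ℝ) : UnitAddCircle) + (-n) • theta) := by
    ext y
    change (ext0 hj alphaA).1 (((TA hj ^ n)⁻¹ : Y ≃ₜ Y) (j (loopB y))) = _
    rw [← zpow_neg, TA, extHomeo_zpow, ext0_apply]
    change theta ((twA ^ (-n)) (loopB y)).1.1 = _
    rw [twA_zpow]
    rfl
  rw [h1, deg_theta_comp, deg_affine, deg_theta, mul_one]

/-- Powers of the two twists seen by the second class along the horizontal loop. -/
lemma degA_TATB (n k : ℤ) :
    degHom ((⟨j, hj.continuous⟩ : C(Handle, Y)).comp loopA)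
      (act Y (TA hj ^ n * TB hj ^ k) ((ext0 hj alphaB : Pcs Y) : Lam Y)) = -k := by
  rw [degHom_act]
  set c : UnitAddCircle := (-n) • theta ((1/2 : ℝ) : UnitAddCircle) with hc
  have h1 : (ext0 hj alphaB).1.comp
      ((⟨((TA hj ^ n * TB hj ^ k)⁻¹ : Y ≃ₜ Y),
        ((TA hj ^ n * TB hj ^ k)⁻¹ : Y ≃ₜ Y).continuous⟩ : C(Y, Y)).comp
        ((⟨j, hj.continuous⟩ : C(Handle, Y)).comp loopA)) =
      theta.comp (ContinuousMap.const _ ((1/2 : ℝ) : UnitAddCircle) +
        (-k) • theta.comp (ContinuousMap.id _ + ContinuousMap.const _ c)) := by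
    ext y
    change (ext0 hj alphaB).1 (((TA hj ^ n * TB hj ^ k)⁻¹ : Y ≃ₜ Y) (j (loopA y))) = _
    rw [mul_inv_rev, ← zpow_neg, ← zpow_neg]
    change (ext0 hj alphaB).1 ((TB hj ^ (-k)) ((TA hj ^ (-n)) (j (loopA y)))) = _
    rw [TA, TB, extHomeo_zpow, extHomeo_zpow, ext0_apply]
    change theta ((twB ^ (-k)) ((twA ^ (-n)) (loopA y))).1.2 = _
    rw [twB_zpow, twA_zpow]
    rfl
  rw [h1, deg_theta_comp, deg_affine, deg_theta_comp, map_add, deg_id,
    deg_eq_zero_of_liftable (const_mem_liftable c)]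
  ring

end Pool.Agent.Helper2.Genus
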