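import Mathlib
import Pool.Agent.Helper2.Genus.Twist

/-!
# Mapping class groups of surfaces of finite positive genus do not have two ends
-/

set_option autoImplicit false

open Topology unitInterval Set

namespace Pool.Agent.Helper2.Genus

open Pool.Agent.Helper50.Ends

/-- A locally compact, locally connected Hausdorff space containing a one-holed torus, with
finitely generated `Lam`. -/
theorem not_two_of_handle {Y : Type*} [TopologicalSpace Y] [T2Space Y] [LocallyCompactSpace Y]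
    [LocallyConnectedSpace Y] [IsNoetherian ℤ (Lam Y)] (j : Handle → Y) (hj : IsOpenEmbedding j)
    (H : Subgroup (Y ≃ₜ Y)) (hH : H.FiniteIndex) (S : Set (MCG H)) (hS : CoarselyBounded S)
    (hgen : Subgroup.closure S = ⊤) : numEnds (cayley S) ≠ 2 := by
  obtain ⟨m, hm0, -, hm⟩ := Subgroup.exists_pow_mem_of_index_ne_zero hH.index_ne_zero (TA hj)
  obtain ⟨l, hl0, -, hl⟩ := Subgroup.exists_pow_mem_of_index_ne_zero hH.index_ne_zero (TB hj)
  refine not_two_of_rep (rep H) (rep_locallyConstant H) S hS hgen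
    (((⟨TA hj ^ m, hm⟩ : H)) : MCG H)
    (degHom ((⟨j, hj.continuous⟩ : C(Handle, Y)).comp loopB))
    (degHom ((⟨j, hj.continuous⟩ : C(Handle, Y)).comp loopA))
    ((ext0 hj alphaA : Pcs Y) : Lam Y) ((ext0 hj alphaB : Pcs Y) : Lam Y) ?_ ?_
  · intro n
    have h1 : rep H ((((⟨TA hj ^ m, hm⟩ : H)) : MCG H) ^ n) = act Y (TA hj ^ ((m : ℤ) * n)) := by
      rw [← QuotientGroup.mk_zpow, rep_mk, Subgroup.coe_zpow, zpow_mul, zpow_natCast]
    rw [h1, degB_TA, Int.natAbs_neg, Int.natAbs_mul]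
    exact Nat.le_mul_of_pos_left _ (by simpa using hm0)
  · intro k
    refine ⟨(((⟨TB hj ^ l, hl⟩ : H) ^ (k : ℤ) : H) : MCG H), fun n => ?_⟩
    have h1 : rep H ((((⟨TA hj ^ m, hm⟩ : H)) : MCG H) ^ (-n) *
        (((⟨TB hj ^ l, hl⟩ : H) ^ (k : ℤ) : H) : MCG H)) =
        act Y (TA hj ^ ((m : ℤ) * (-n)) * TB hj ^ ((l : ℤ) * k)) := by
      rw [← QuotientGroup.mk_zpow, ← QuotientGroup.mk_mul, rep_mk, Subgroup.coe_mul,
        Subgroup.coe_zpow, Subgroup.coe_zpow, zpow_mul, zpow_mul, zpow_natCast (TA hj),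
        zpow_natCast (TB hj)]
    rw [h1, degA_TATB, Int.natAbs_neg, Int.natAbs_mul]
    exact Nat.le_mul_of_pos_left _ (by simpa using hl0)

/-- The complement of a closed set in a closed surface. -/
theorem not_two_of_compact {X : Type*} [TopologicalSpace X] [T2Space X] [CompactSpace X]
    [ChartedSpace (EuclideanSpace ℝ (Fin 2)) X] (E : Set X) (hE : IsClosed E)
    (j : Handle → (Eᶜ : Set X)) (hj : IsOpenEmbedding j)
    (H : Subgroup ((Eᶜ : Set X) ≃ₜ (Eᶜ : Set X))) (hH : H.FiniteIndex)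
    (S : Set (MCG H)) (hS : CoarselyBounded S)
    (hgen : Subgroup.closure S = ⊤) : numEnds (cayley S) ≠ 2 := by
  have h1 : LocallyConnectedSpace X :=
    ChartedSpace.locallyConnectedSpace (EuclideanSpace ℝ (Fin 2)) X
  have hopen : IsOpen (Eᶜ : Set X) := hE.isOpen_compl
  have h2 : LocallyConnectedSpace (Eᶜ : Set X) := hopen.locallyConnectedSpace
  have h3 : LocallyCompactSpace (Eᶜ : Set X) := hopen.locallyCompactSpace
  have h4 : IsNoetherian ℤ (C(X, UnitAddCircle) ⧸ liftable X) := fg_compact (n := 2)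
  have h5 : IsNoetherian ℤ (Lam (Eᶜ : Set X)) := lam_noetherian hopen.isOpenEmbedding_subtypeVal
  exact not_two_of_handle j hj H hH S hS hgen

end Pool.Agent.Helper2.Genus
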